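import Pool.Agent.L5helper2.CH.B11

/-! MP_648c71_nt (helper2): Chowla's conjecture for all squarefree polynomials and almost all completely multiplicative
functions near the Liouville function (or near any other function with values `1` and `-1`). -/

set_option autoImplicit false

namespace Pool.Agent.Results.MP_648c71_nt.AlmostAllPerturbations

open Finset MeasureTheory ProbabilityTheory Filter Topology
open scoped Polynomial

/-- the value at the integer `m` of the completely multiplicative function with the values `u p` at the primes `p`;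
it is `0` at `0` and even -/
noncomputable def mult (u : ℕ → ℝ) (m : ℤ) : ℝ :=
  if m = 0 then 0 else m.natAbs.factorization.prod fun p v => u p ^ v

/-- the sum of the values at `f(t)`, over the `t` with `1 ≤ t ≤ x` and `t ≡ a` modulo `q` -/
noncomputable def total (u : ℕ → ℝ) (f : ℤ[X]) (a : ℤ) (q x : ℕ) : ℝ :=
  ∑ t ∈ (Icc 1 x).filter fun t : ℕ => (t : ℤ) ≡ a [ZMOD q], mult u (f.eval (t : ℤ))

/-- the number of the irreducible factors -/
noncomputable def factors (f : ℤ[X]) : ℕ := Multiset.card (UniqueFactorizationMonoid.normalizedFactors f)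

theorem result {Ω : Type} [MeasurableSpace Ω] (P : Measure Ω) [IsProbabilityMeasure P] (X : ℕ → Ω → ℝ)
    (hmeas : ∀ p, Measurable (X p)) (hind : iIndepFun (fun p : Nat.Primes => X p) P)
    (hval : ∀ p ω, X p ω = 1 ∨ X p ω = -1)
    (ψ : ℕ → ℝ) (hψ : Antitone ψ) (hψ0 : ∀ x, 0 ≤ ψ x) (hψd : ∀ p : ℕ, p.Prime → ψ p ≤ 1 - |∫ ω, X p ω ∂P|)
    (hlim : Tendsto (fun x : ℕ => ψ x * Real.log (Real.log x) / Real.log (Real.log (Real.log (Real.log x)))) atTop atTop) :
    ∀ᵐ ω ∂P, ∀ f : ℤ[X], f.IsPrimitive → Squarefree f → 1 ≤ f.natDegree → ∀ (a : ℤ) (q : ℕ), 1 ≤ q →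
      Tendsto (fun x : ℕ => total (fun p => X p ω) f a q x / x) atTop (𝓝 0) ∧
      ∀ ε : ℝ, 0 < ε → ∃ x0 : ℕ, ∀ x : ℕ, x0 ≤ x →
        |total (fun p => X p ω) f a q x| ≤ x * Real.log x ^ (-((1 - ε) * (factors f * ψ x))) := by
  classical
  have hS : Pool.Agent.L5helper2.CH.Signs P X := ⟨inferInstance, hmeas, hind, hval⟩
  have hcnt : Countable ℤ[X] := Cardinal.mk_le_aleph0_iff.1 (Polynomial.cardinalMk_le_max.trans (by simp))
  have key : ∀ (f : ℤ[X]) (a : ℤ) (q : ℕ), ∀ᵐ ω ∂P, f.IsPrimitive → Squarefree f → 1 ≤ f.natDegree →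
      ∀ ε : ℝ, 0 < ε → ∃ x0 : ℕ, ∀ x : ℕ, x0 ≤ x →
        |Pool.Agent.L5helper2.CH.SS X (fun t : ℕ => if (t : ℤ) ≡ a [ZMOD q] then 1 else 0)
          (Pool.Agent.L5helper2.CH.ev f) ω x| ≤
          x * Real.exp (-((1 - ε) * (#(Pool.Agent.L5helper2.CH.facs f) * (ψ x * Real.log (Real.log x))))) := by
    intro f a q
    by_cases h1 : f.IsPrimitive
    · by_cases h2 : Squarefree f
      · by_cases h3 : 1 ≤ f.natDegree
        · filter_upwards [hS.as_fac hψ hψ0 hψd hlim h1 h2 h3
            (c := fun t : ℕ => if (t : ℤ) ≡ a [ZMOD q] then 1 else 0) (fun t => by split_ifs <;> simp)] with ω hω _ _ _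
          exact hω
        · exact Eventually.of_forall fun ω _ _ h => absurd h h3
      · exact Eventually.of_forall fun ω _ h => absurd h h2
    · exact Eventually.of_forall fun ω h => absurd h h1
  have key2 : ∀ᵐ ω ∂P, ∀ (f : ℤ[X]) (a : ℤ) (q : ℕ), f.IsPrimitive → Squarefree f → 1 ≤ f.natDegree →
      ∀ ε : ℝ, 0 < ε → ∃ x0 : ℕ, ∀ x : ℕ, x0 ≤ x →
        |Pool.Agent.L5helper2.CH.SS X (fun t : ℕ => if (t : ℤ) ≡ a [ZMOD q] then 1 else 0)
          (Pool.Agent.L5helper2.CH.ev f) ω x| ≤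
          x * Real.exp (-((1 - ε) * (#(Pool.Agent.L5helper2.CH.facs f) * (ψ x * Real.log (Real.log x))))) := by
    rw [ae_all_iff]; intro f
    rw [ae_all_iff]; intro a
    rw [ae_all_iff]; intro q
    exact key f a q
  filter_upwards [key2] with ω hω f h1 h2 h3 a q _
  have hf0 : f ≠ 0 := h2.ne_zero
  have e : ∀ x, Pool.Agent.L5helper2.CH.SS X (fun t : ℕ => if (t : ℤ) ≡ a [ZMOD q] then 1 else 0)
      (Pool.Agent.L5helper2.CH.ev f) ω x = total (fun p => X p ω) f a q x := by
    intro x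
    unfold Pool.Agent.L5helper2.CH.SS total
    rw [sum_filter]
    have e0 : Ioc 0 x = Icc 1 x := by
      ext n
      rw [mem_Ioc, mem_Icc]
      omega
    rw [e0]
    refine sum_congr rfl fun t _ => ?_
    have e1 : Pool.Agent.L5helper2.CH.FF X ω (Pool.Agent.L5helper2.CH.ev f t).natAbs =
        mult (fun p => X p ω) (f.eval (t : ℤ)) := by
      unfold Pool.Agent.L5helper2.CH.FF mult Pool.Agent.L5helper2.CH.ev
      by_cases h : f.eval (t : ℤ) = 0
      · rw [if_pos h, if_pos (Int.natAbs_eq_zero.2 h)]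
      · rw [if_neg h, if_neg (fun h' => h (Int.natAbs_eq_zero.1 h'))]
    rw [e1]
    show (if (t : ℤ) ≡ a [ZMOD q] then (1 : ℝ) else 0) * _ = _
    by_cases h : (t : ℤ) ≡ a [ZMOD q]
    · rw [if_pos h, if_pos h, one_mul]
    · rw [if_neg h, if_neg h, zero_mul]
  have ht : #(Pool.Agent.L5helper2.CH.facs f) = factors f := Pool.Agent.L5helper2.CH.facs_card h2 hf0
  have ht1 : (1 : ℝ) ≤ factors f := by
    rw [← ht]
    exact_mod_cast (Pool.Agent.L5helper2.CH.facs_nonempty hf0 h3).card_pos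
  have hmain : ∀ ε : ℝ, 0 < ε → ∃ x0 : ℕ, ∀ x : ℕ, x0 ≤ x → |total (fun p => X p ω) f a q x| ≤
      x * Real.exp (-((1 - ε) * (factors f * (ψ x * Real.log (Real.log x))))) := by
    intro ε hε
    obtain ⟨x0, hx0⟩ := hω f a q h1 h2 h3 ε hε
    refine ⟨x0, fun x hx => ?_⟩
    have := hx0 x hx
    rwa [e, ht] at this
  refine ⟨?_, ?_⟩
  · obtain ⟨x0, hx0⟩ := hmain (1 / 2) (by norm_num)
    have hL := Pool.Agent.L5helper2.CH.log4_tendsto
    have h4 : Tendsto (fun x : ℕ => ψ x * Real.log (Real.log x)) atTop atTop := by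
      refine tendsto_atTop_mono' _ ?_ hlim
      filter_upwards [hL.eventually_ge_atTop 1, Pool.Agent.L5helper2.CH.tend_LL.eventually_ge_atTop 0] with x hx hx2
      have hx' : 1 ≤ Real.log (Real.log (Real.log (Real.log (x : ℝ)))) := hx
      rw [div_le_iff₀ (by linarith)]
      exact le_mul_of_one_le_right (mul_nonneg (hψ0 x) hx2) hx'
    have h5 : Tendsto (fun x : ℕ => Real.exp (-((1 - 1 / 2) * (factors f * (ψ x * Real.log (Real.log x)))))) atTop (𝓝 0) := by
      refine Real.tendsto_exp_atBot.comp (tendsto_neg_atTop_atBot.comp ?_)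
      refine Tendsto.const_mul_atTop (by norm_num) ?_
      exact h4.const_mul_atTop (by linarith)
    refine squeeze_zero_norm' ?_ h5
    filter_upwards [eventually_ge_atTop x0, eventually_ge_atTop 1] with x hx hx1
    have hx' : (0 : ℝ) < x := by exact_mod_cast hx1
    rw [Real.norm_eq_abs, abs_div, abs_of_pos hx', div_le_iff₀ hx']
    calc _ ≤ _ := hx0 x hx
      _ = _ := mul_comm _ _
  · intro ε hε
    obtain ⟨x0, hx0⟩ := hmain ε hε
    refine ⟨max x0 3, fun x hx => ?_⟩
    have h4 := hx0 x ((le_max_left _ _).trans hx)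
    have hx3 : 3 ≤ x := (le_max_right _ _).trans hx
    have hlog : 0 < Real.log (x : ℝ) := Real.log_pos (by exact_mod_cast (by omega : 1 < x))
    rw [Real.rpow_def_of_pos hlog]
    refine h4.trans (le_of_eq ?_)
    congr 2
    ring

end Pool.Agent.Results.MP_648c71_nt.AlmostAllPerturbations
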