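import Pool.Agent.L5helper13.Tail

/-!
# The Liouville function at an arbitrary polynomial and along infinite sets of linear polynomials

Every infinite set of linear polynomials contains an infinite sequence `ℓ_0, ℓ_1, ...` such that, along an infinite
set of scales, for EVERY polynomial `g` with integer coefficients and every progression the values of the Liouville
function at `ℓ_j(t)`, `j ∈ S`, are nearly independent fair signs which are nearly independent of the value at `g(t)`,
for all finite sets `S` of large indices. In particular Chowla's conjecture holds up to `ε` for all the polynomials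
`g ∏ ℓ_j`, `j ∈ S`.
-/

set_option autoImplicit false

namespace Pool.Agent.Results.MP_648c71_nt.IndependentTails

open Finset Filter Topology Polynomial

/-- The Liouville function on the integers: `λ(-m) = λ(m)` and `λ(0) = 0`. -/
noncomputable def liouville (m : ℤ) : ℝ := if m = 0 then 0 else (-1) ^ ArithmeticFunction.cardFactors m.natAbs

open Classical in
/-- The integers `1 ≤ t ≤ N` with `t ≡ r` modulo `q`. -/
noncomputable def points (N q : ℕ) (r : ℤ) : Finset ℕ := (Icc 1 N).filter (fun t => (t : ℤ) ≡ r [ZMOD q])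

/-- The sum of `λ(f(t))` over the points of the progression up to `N`. -/
noncomputable def total (f : ℤ[X]) (N q : ℕ) (r : ℤ) : ℝ := ∑ t ∈ points N q r, liouville (f.eval (t : ℤ))

open Classical in
/-- The sum of `λ(g(t))` over the points `t` of the progression up to `N` with the sign pattern `P` on `S`: for
`j ∈ S`, `λ(ℓ_j(t)) = 1` exactly if `j ∈ P`. -/
noncomputable def patternTotal (g : ℤ[X]) (ℓ : ℕ → ℤ[X]) (S P : Finset ℕ) (N q : ℕ) (r : ℤ) : ℝ :=
  ∑ t ∈ (points N q r).filter (fun t : ℕ => ∀ j ∈ S, (liouville ((ℓ j).eval (t : ℤ)) = 1 ↔ j ∈ P)),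
    liouville (g.eval (t : ℤ))

/-- **Theorem.** There is a set `E` of logarithmic density zero with the following property. Let `a_j T + b_j`,
`j ≥ 0`, be pairwise non-proportional linear polynomials with `a_j ≥ 1`, and let `M` be an infinite set of scales
disjoint from `E`. There are an infinite subsequence `ℓ_0, ℓ_1, ...` of the linear polynomials and an infinite
subset `M'` of `M` such that for every polynomial `g` with integer coefficients, every progression and every
`ε > 0` there is `m` such that for all finite sets `S` of indices `j ≥ m` and all large `N ∈ M'`: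
(1) the sum over the `2^|S|` sign patterns on `S` of the difference between the sum of `λ(g(t))` over the points
`t ≤ N` with this pattern and `2^(-|S|)` times the sum over all points `t ≤ N` is at most `ε N`;
(2) if `S` is not empty, then the sum of `λ(g(t) ∏_{j ∈ S} ℓ_j(t))` over the points `t ≤ N` is at most `ε N`. -/
theorem result : ∃ E : Set ℕ,
    (open Classical in
    Tendsto (fun X : ℕ => (∑ N ∈ Icc 1 X, if N ∈ E then (1 : ℝ) / N else 0) / Real.log X) atTop (𝓝 0)) ∧
    ∀ a b : ℕ → ℤ, (∀ j, 0 < a j) → (∀ i j, i ≠ j → a i * b j ≠ a j * b i) →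
    ∀ M : Set ℕ, M.Infinite → Disjoint M E → ∃ (ψ : ℕ → ℕ) (M' : Set ℕ), StrictMono ψ ∧ M' ⊆ M ∧ M'.Infinite ∧
      ∀ (g : ℤ[X]) (q : ℕ), 1 ≤ q → ∀ (r : ℤ) (ε : ℝ), 0 < ε → ∃ m : ℕ, ∀ S : Finset ℕ, (∀ j ∈ S, m ≤ j) →
        ∃ N₀ : ℕ, ∀ N ∈ M', N₀ ≤ N →
          ∑ P ∈ S.powerset, |patternTotal g (fun j => C (a (ψ j)) * X + C (b (ψ j))) S P N q r -
            (1 / 2) ^ S.card * total g N q r| ≤ ε * N ∧
          (S.Nonempty → |total (g * ∏ j ∈ S, (C (a (ψ j)) * X + C (b (ψ j)))) N q r| ≤ ε * N) := by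
  classical
  obtain ⟨E, hE, h⟩ := Pool.Agent.L5helper13.tail_pat
  refine ⟨E, hE, fun a b ha hab M hM hME => ?_⟩
  -- the scales
  obtain ⟨s, hs, hsM⟩ : ∃ s : ℕ → ℕ, StrictMono s ∧ ∀ k, s k ∈ M := by
    have h1 : ∃ᶠ n in atTop, n ∈ M := Nat.frequently_atTop_iff_infinite.2 hM
    exact extraction_of_frequently_atTop h1
  -- the sequences
  haveI : Countable ℤ[X] := by
    rw [← Cardinal.mk_le_aleph0_iff]
    exact Polynomial.cardinalMk_le_max.trans (max_le (Cardinal.mk_le_aleph0_iff.2 inferInstance) le_rfl)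
  obtain ⟨enum, henum⟩ := exists_surjective_nat (ℤ[X] × ℕ × ℤ)
  obtain ⟨φ, ψ, hφ, hψ, h1⟩ := h (fun i t => if (t : ℤ) ≡ (enum i).2.2 [ZMOD (enum i).2.1] then
      Pool.Agent.L5helper13.LL ((enum i).1.eval (t : ℤ)) else 0) (fun i t => by
      split_ifs
      · exact Pool.Agent.L5helper13.LL_le _
      · simp) a b ha hab s hs (fun k hk => Set.disjoint_left.1 hME (hsM k) hk)
  refine ⟨ψ, Set.range (s ∘ φ), hψ, ?_, Set.infinite_range_of_injective (hs.comp hφ).injective, ?_⟩
  · rintro _ ⟨k, rfl⟩
    exact hsM _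
  intro g q hq r ε hε
  obtain ⟨i, hi⟩ := henum (g, q, r)
  obtain ⟨m, hm⟩ := h1 i ε hε
  refine ⟨m, fun S hS => ?_⟩
  obtain ⟨k₀, hk₀⟩ := hm S hS
  refine ⟨s (φ k₀) + 1, ?_⟩
  rintro _ ⟨k, rfl⟩ hN
  have hN' : s (φ k₀) < s (φ k) := hN
  have hk : k₀ ≤ k := ((hs.comp hφ).lt_iff_lt.1 hN').le
  obtain ⟨h2, h3⟩ := hk₀ k hk
  simp only [hi] at h2 h3
  have heval : ∀ (j : ℕ) (t : ℕ), (C (a (ψ j)) * X + C (b (ψ j)) : ℤ[X]).eval (t : ℤ) = a (ψ j) * t + b (ψ j) := by
    intro j t
    simp
  show ∑ P ∈ S.powerset, |patternTotal g _ S P (s (φ k)) q r - (1 / 2) ^ S.card * total g (s (φ k)) q r| ≤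
    ε * (s (φ k) : ℝ) ∧ _
  constructor
  · refine le_trans (le_of_eq ?_) h2
    apply sum_congr rfl
    intro P _
    congr 2
    · unfold patternTotal points
      rw [filter_filter, sum_filter, sum_filter]
      apply sum_congr rfl
      intro t _
      by_cases h4 : (t : ℤ) ≡ r [ZMOD q]
      · have e : ((t : ℤ) ≡ r [ZMOD q] ∧ ∀ j ∈ S, (liouville ((C (a (ψ j)) * X + C (b (ψ j)) : ℤ[X]).eval (t : ℤ)) = 1 ↔ j ∈ P)) ↔
            ∀ j ∈ S, (Pool.Agent.L5helper13.LL (a (ψ j) * t + b (ψ j)) = 1 ↔ j ∈ P) := by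
          constructor
          · rintro ⟨-, h5⟩ j hj
            have := h5 j hj
            rw [heval] at this
            exact this
          · intro h5
            refine ⟨h4, fun j hj => ?_⟩
            rw [heval]
            exact h5 j hj
        by_cases h6 : ∀ j ∈ S, (Pool.Agent.L5helper13.LL (a (ψ j) * t + b (ψ j)) = 1 ↔ j ∈ P)
        · rw [if_pos (e.2 h6), if_pos h6, if_pos h4]
          rfl
        · rw [if_neg (fun h7 => h6 (e.1 h7)), if_neg h6]
      · rw [if_neg (fun h5 => h4 h5.1)]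
        split_ifs <;> rfl
    · unfold total points
      rw [sum_filter]
      rfl
  · intro hSne
    refine le_trans (le_of_eq ?_) (h3 hSne)
    congr 1
    unfold total points
    rw [sum_filter]
    apply sum_congr rfl
    intro t _
    split_ifs with h4
    · rw [eval_mul, eval_prod]
      simp only [heval]
      show Pool.Agent.L5helper13.LL _ = _
      rw [Pool.Agent.L5helper13.LL_mul, Pool.Agent.L5helper13.LL_prod]
    · rw [zero_mul]

end Pool.Agent.Results.MP_648c71_nt.IndependentTails
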