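import Pool.Agent.L5helper13.Parity
import Pool.Agent.L5helper13.Seq

/-!
# Multiples of an arbitrary polynomial by linear polynomials: a parity alternative for the Liouville function

Let `g` be any nonzero polynomial with integer coefficients, of any degree. For each progression, the Liouville
function takes both signs infinitely often at the values of all the multiples of `g` by products of an even number
of linear polynomials, or it does so for all the products of an odd number. The quantitative form: at almost all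
scales (in the logarithmic sense) both signs have proportion at least `1/4 - ε` for all the even products, or for
all the odd products, of the members of a given family.
-/

set_option autoImplicit false

namespace Pool.Agent.Results.MP_648c71_nt.ParityAlternative

open Finset Filter Topology Polynomial

/-- The Liouville function on the integers: `λ(-m) = λ(m)` and `λ(0) = 0`. -/
noncomputable def liouville (m : ℤ) : ℝ := if m = 0 then 0 else (-1) ^ ArithmeticFunction.cardFactors m.natAbs

open Classical in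
/-- The integers `1 ≤ t ≤ N` with `t ≡ r` modulo `q`. -/
noncomputable def points (N q : ℕ) (r : ℤ) : Finset ℕ := (Icc 1 N).filter (fun t => (t : ℤ) ≡ r [ZMOD q])

/-- The multiple `g ∏ (a_i T + b_i)`, `i ∈ S`, of the polynomial `g`. -/
noncomputable def multiple {R : ℕ} (g : ℤ[X]) (a b : Fin R → ℤ) (S : Finset (Fin R)) : ℤ[X] :=
  g * ∏ i ∈ S, (C (a i) * X + C (b i))

/-- The sum of `λ(f(t))` over the points of the progression up to `N`. -/
noncomputable def total (f : ℤ[X]) (N q : ℕ) (r : ℤ) : ℝ := ∑ t ∈ points N q r, liouville (f.eval (t : ℤ))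

/-- The number of the points of the progression up to `N` at which `λ(f(t)) = s`. -/
noncomputable def count (f : ℤ[X]) (s : ℝ) (N q : ℕ) (r : ℤ) : ℕ :=
  ((points N q r).filter (fun t : ℕ => liouville (f.eval (t : ℤ)) = s)).card

/-- `λ(f(t))` takes both values infinitely often in the progression. -/
def BothSigns (f : ℤ[X]) (q : ℕ) (r : ℤ) : Prop :=
  ∀ s : ℝ, s = 1 ∨ s = -1 → {t : ℕ | (t : ℤ) ≡ r [ZMOD q] ∧ liouville (f.eval (t : ℤ)) = s}.Infinite

lemma liou_eq (m : ℤ) : liouville m = Pool.Agent.L5helper13.LL m := rfl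

lemma points_eq (N q : ℕ) (r : ℤ) : points N q r = Pool.Agent.L5helper13.AP N q r := rfl

lemma eval_multiple {R : ℕ} (g : ℤ[X]) (a b : Fin R → ℤ) (S : Finset (Fin R)) (t : ℤ) :
    (multiple g a b S).eval t = g.eval t * ∏ i ∈ S, (a i * t + b i) := by
  unfold multiple
  rw [eval_mul, eval_prod]
  congr 1
  apply prod_congr rfl
  intro i _
  simp

lemma total_multiple {R : ℕ} (g : ℤ[X]) (a b : Fin R → ℤ) (S : Finset (Fin R)) (N q : ℕ) (r : ℤ) :
    total (multiple g a b S) N q r = ∑ t ∈ Pool.Agent.L5helper13.AP N q r,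
      Pool.Agent.L5helper13.LL (g.eval (t : ℤ)) * ∏ i ∈ S, Pool.Agent.L5helper13.LL (a i * t + b i) := by
  unfold total
  rw [points_eq]
  apply sum_congr rfl
  intro t _
  rw [liou_eq, eval_multiple, Pool.Agent.L5helper13.LL_mul, Pool.Agent.L5helper13.LL_prod]

lemma liou_cases {m : ℤ} (hm : m ≠ 0) : liouville m = 1 ∨ liouville m = -1 := Pool.Agent.L5helper13.LL_cases hm

lemma multiple_ne {R : ℕ} {g : ℤ[X]} (hg : g ≠ 0) {a : Fin R → ℤ} (b : Fin R → ℤ) (ha : ∀ i, a i ≠ 0)
    (S : Finset (Fin R)) : multiple g a b S ≠ 0 := by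
  unfold multiple
  refine mul_ne_zero hg (prod_ne_zero_iff.2 fun i _ h => ?_)
  have h1 := congrArg (fun p : ℤ[X] => p.coeff 1) h
  rw [coeff_add, coeff_C_mul, coeff_X_one, mul_one, coeff_C_succ, add_zero, coeff_zero] at h1
  exact ha i h1

/-- the zeros are few -/
lemma zeros {f : ℤ[X]} (hf : f ≠ 0) : ∃ K : ℕ, ∀ t : ℕ, K ≤ t → f.eval (t : ℤ) ≠ 0 := by
  have h1 : (f.roots.toFinset : Set ℤ).Finite := Finset.finite_toSet _
  obtain ⟨B, hB⟩ := h1.bddAbove
  refine ⟨(B + 1).toNat, fun t ht h0 => ?_⟩
  have h2 : (t : ℤ) ∈ (f.roots.toFinset : Set ℤ) := by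
    rw [mem_coe, Multiset.mem_toFinset, mem_roots hf]
    exact h0
  have := hB h2
  omega

/-- the number of the points with a given sign -/
lemma count_bound {f : ℤ[X]} {K : ℕ} (hK : ∀ t : ℕ, K ≤ t → f.eval (t : ℤ) ≠ 0) (N q : ℕ) (r : ℤ) {s : ℝ}
    (hs : s = 1 ∨ s = -1) {B : ℝ} (hB : |total f N q r| ≤ B) :
    ((points N q r).card : ℝ) / 2 - K / 2 - B / 2 ≤ count f s N q r := by
  classical
  -- `1 + s λ` is twice the indicator
  have h1 : ∀ t ∈ points N q r, (1 + s * liouville (f.eval (t : ℤ))) ≤
      2 * (if liouville (f.eval (t : ℤ)) = s then 1 else 0) + (if t < K then 1 else 0) := by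
    intro t _
    by_cases ht : t < K
    · rw [if_pos ht]
      have h2 : |liouville (f.eval (t : ℤ))| ≤ 1 := Pool.Agent.L5helper13.LL_le _
      by_cases h3 : liouville (f.eval (t : ℤ)) = s
      · rw [if_pos h3, h3]
        rcases hs with h | h <;> rw [h] <;> norm_num
      · rw [if_neg h3]
        by_cases h4 : f.eval (t : ℤ) = 0
        · rw [h4]
          unfold liouville
          simp
        · rcases liou_cases h4 with h5 | h5 <;> rcases hs with h | h <;> rw [h5, h] at h3 ⊢ <;>
            first | exact absurd rfl h3 | norm_num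
    · rw [if_neg ht, add_zero]
      rcases liou_cases (hK t (by omega)) with h5 | h5 <;> rcases hs with h | h <;> rw [h5, h] <;> norm_num
  have h2 := sum_le_sum h1
  rw [sum_add_distrib, sum_add_distrib, ← mul_sum, ← mul_sum, ← sum_filter, ← sum_filter] at h2
  simp only [sum_const, nsmul_eq_mul, mul_one] at h2
  have h3 : (((points N q r).filter (fun t => t < K)).card : ℝ) ≤ K := by
    have h4 : ((points N q r).filter (fun t => t < K)).card ≤ (range K).card := by
      apply card_le_card
      intro t ht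
      rw [mem_filter] at ht
      exact mem_range.2 ht.2
    rw [card_range] at h4
    exact_mod_cast h4
  have h4 : -B ≤ s * total f N q r := by
    have h5 := abs_le.1 hB
    rcases hs with h | h <;> rw [h] <;> linarith [h5.1, h5.2]
  have h5 : s * total f N q r = s * ∑ t ∈ points N q r, liouville (f.eval (t : ℤ)) := rfl
  rw [← h5] at h2
  unfold count
  linarith

lemma points_lower (N q : ℕ) (hq : 1 ≤ q) (r : ℤ) : (N : ℝ) / q - 1 ≤ (points N q r).card := by
  classical
  have hq0 : (0 : ℝ) < q := by exact_mod_cast hq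
  -- one point in each block of length `q`
  have h1 : (range (N / q)).card ≤ (points N q r).card := by
    apply card_le_card_of_injOn (fun j => j * q + 1 + ((r - 1) % q).toNat)
    · intro j hj
      rw [mem_coe, mem_range] at hj
      have h2 : (((r - 1) % q).toNat : ℤ) = (r - 1) % q := Int.toNat_of_nonneg (Int.emod_nonneg _ (by omega))
      have h3 : (r - 1) % (q : ℤ) < q := Int.emod_lt_of_pos _ (by omega)
      have h4 : ((r - 1) % q).toNat < q := by omega
      have h5 : (j + 1) * q ≤ N := (Nat.mul_le_mul_right q hj).trans (Nat.div_mul_le_self N q)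
      have h6 : j * q + q ≤ N := by
        have : j * q + q = (j + 1) * q := by ring
        rw [this]
        exact h5
      show j * q + 1 + ((r - 1) % q).toNat ∈ _
      unfold points
      rw [mem_coe, mem_filter, mem_Icc]
      refine ⟨by omega, ?_⟩
      push_cast
      rw [h2]
      have h7 : (r - 1) % (q : ℤ) ≡ r - 1 [ZMOD q] := Int.mod_modEq _ _
      have h8 : (j : ℤ) * q + 1 ≡ 1 [ZMOD q] := by
        have : (j : ℤ) * q + 1 ≡ 0 + 1 [ZMOD q] := Int.ModEq.add_right 1 (Int.modEq_zero_iff_dvd.2 (dvd_mul_left _ _))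
        simpa using this
      have h9 := h8.add h7
      have h10 : (1 : ℤ) + (r - 1) = r := by ring
      rw [h10] at h9
      exact h9
    · intro j _ j' _ hjj
      have h2 : j * q + 1 + ((r - 1) % q).toNat = j' * q + 1 + ((r - 1) % q).toNat := hjj
      have h3 : j * q = j' * q := by omega
      exact Nat.eq_of_mul_eq_mul_right hq h3
  rw [card_range] at h1
  have h2 : (N : ℝ) / q - 1 ≤ ((N / q : ℕ) : ℝ) := by
    have h3 : N < q * (N / q + 1) := Nat.lt_mul_div_succ N hq
    have h4 : (N : ℝ) < q * (((N / q : ℕ) : ℝ) + 1) := by exact_mod_cast h3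
    rw [sub_le_iff_le_add, div_le_iff₀ hq0]
    linarith
  have h3 : ((N / q : ℕ) : ℝ) ≤ (points N q r).card := by exact_mod_cast h1
  linarith

/-- if a sign occurs only finitely often, then the sum is large -/
lemma total_large {f : ℤ[X]} (hf : f ≠ 0) {q : ℕ} {r : ℤ} {s : ℝ} (hs : s = 1 ∨ s = -1)
    (hfin : {t : ℕ | (t : ℤ) ≡ r [ZMOD q] ∧ liouville (f.eval (t : ℤ)) = s}.Finite) :
    ∃ K : ℕ, ∀ N : ℕ, ((points N q r).card : ℝ) - 2 * K ≤ |total f N q r| := by
  classical
  obtain ⟨K₁, hK₁⟩ := zeros hf
  obtain ⟨K₂, hK₂⟩ := hfin.bddAbove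
  refine ⟨K₁ + K₂ + 1, fun N => ?_⟩
  have h1 : ∀ t ∈ points N q r, (1 : ℝ) - 2 * (if t < K₁ + K₂ + 1 then 1 else 0) ≤ -s * liouville (f.eval (t : ℤ)) := by
    intro t ht
    have h2 : |liouville (f.eval (t : ℤ))| ≤ 1 := Pool.Agent.L5helper13.LL_le _
    have h2' := abs_le.1 h2
    by_cases htK : t < K₁ + K₂ + 1
    · rw [if_pos htK]
      rcases hs with h | h <;> rw [h] <;> linarith [h2'.1, h2'.2]
    · rw [if_neg htK]
      have h3 : liouville (f.eval (t : ℤ)) ≠ s := by
        intro h4
        have h5 : t ≤ K₂ := hK₂ ⟨by unfold points at ht; rw [mem_filter] at ht; exact ht.2, h4⟩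
        omega
      rcases liou_cases (hK₁ t (by omega)) with h5 | h5 <;> rcases hs with h | h <;> rw [h5, h] at h3 ⊢ <;>
        first | exact absurd rfl h3 | norm_num
  have h2 := sum_le_sum h1
  rw [sum_sub_distrib, ← mul_sum, ← mul_sum, ← sum_filter] at h2
  simp only [sum_const, nsmul_eq_mul, mul_one] at h2
  have h3 : (((points N q r).filter (fun t => t < K₁ + K₂ + 1)).card : ℝ) ≤ ((K₁ + K₂ + 1 : ℕ) : ℝ) := by
    have h4 : ((points N q r).filter (fun t => t < K₁ + K₂ + 1)).card ≤ (range (K₁ + K₂ + 1)).card := by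
      apply card_le_card
      intro t ht
      rw [mem_filter] at ht
      exact mem_range.2 ht.2
    rw [card_range] at h4
    exact_mod_cast h4
  have h4 : -s * ∑ t ∈ points N q r, liouville (f.eval (t : ℤ)) ≤ |total f N q r| := by
    have h5 : |(-s) * total f N q r| = |total f N q r| := by
      rw [abs_mul]
      rcases hs with h | h <;> rw [h] <;> simp
    rw [← h5]
    exact le_abs_self _
  linarith

/-- **Theorem.** There is a set `E` of logarithmic density zero with the following properties. Let `a_i T + b_i`,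
`i < R`, be linear polynomials, `a_i ≥ 1`, and `ε > 0`; for a polynomial `g` and a set `S` of indices let `g_S` be
the product of `g` and the `a_i T + b_i`, `i ∈ S`.
(1) For all large `N ∉ E`, uniformly in all polynomials `g` and all progressions: if the symmetric difference of `S`
and `S'` has an odd number of elements, or consists of two elements with non-proportional polynomials, then the
absolute values of the sums of `λ(g_S(t))` and of `λ(g_(S')(t))` over the points `t ≤ N` of the progression add up to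
at most the number of these points plus `ε N`.
(2) If `g ≠ 0`, then for all large `N ∉ E` and each progression, both signs are the value of `λ(g_S(t))` for at least
a quarter of the points `t ≤ N`, up to `ε N`, for all the `S` with an even number of elements, or for all the `S`
with an odd number of elements.
(3) If `g ≠ 0`, then for each progression, `λ(h(t))` takes both signs infinitely often in the progression for all the
multiples `h` of `g` by an even number of linear polynomials, or for all its multiples by an odd number of linear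
polynomials. -/
theorem result : ∃ E : Set ℕ,
    (open Classical in
    Tendsto (fun X : ℕ => (∑ N ∈ Icc 1 X, if N ∈ E then (1 : ℝ) / N else 0) / Real.log X) atTop (𝓝 0)) ∧
    (∀ (R : ℕ) (a b : Fin R → ℤ), (∀ i, 0 < a i) → ∀ ε : ℝ, 0 < ε → ∃ N₀ : ℕ, ∀ N : ℕ, N₀ ≤ N → N ∉ E →
      ∀ (g : ℤ[X]) (q : ℕ), 1 ≤ q → ∀ (r : ℤ) (S S' : Finset (Fin R)),
        (Odd (symmDiff S S').card ∨ ∃ i j, a i * b j ≠ a j * b i ∧ symmDiff S S' = {i, j}) →
        |total (multiple g a b S) N q r| + |total (multiple g a b S') N q r| ≤ (points N q r).card + ε * N) ∧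
    (∀ (g : ℤ[X]), g ≠ 0 → ∀ (R : ℕ) (a b : Fin R → ℤ), (∀ i, 0 < a i) → ∀ ε : ℝ, 0 < ε → ∃ N₀ : ℕ, ∀ N : ℕ,
      N₀ ≤ N → N ∉ E → ∀ q : ℕ, 1 ≤ q → ∀ r : ℤ,
        (∀ S : Finset (Fin R), Even S.card → ∀ s : ℝ, s = 1 ∨ s = -1 →
          ((points N q r).card : ℝ) / 4 - ε * N ≤ count (multiple g a b S) s N q r) ∨
        (∀ S : Finset (Fin R), Odd S.card → ∀ s : ℝ, s = 1 ∨ s = -1 →
          ((points N q r).card : ℝ) / 4 - ε * N ≤ count (multiple g a b S) s N q r)) ∧
    (∀ (g : ℤ[X]), g ≠ 0 → ∀ q : ℕ, 1 ≤ q → ∀ r : ℤ,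
      (∀ (k : ℕ) (a b : Fin k → ℤ), (∀ i, 0 < a i) → Even k → BothSigns (multiple g a b univ) q r) ∨
      (∀ (k : ℕ) (a b : Fin k → ℤ), (∀ i, 0 < a i) → Odd k → BothSigns (multiple g a b univ) q r)) := by
  classical
  obtain ⟨E, hE, h⟩ := Pool.Agent.L5helper13.pair_core
  have part1 : ∀ (R : ℕ) (a b : Fin R → ℤ), (∀ i, 0 < a i) → ∀ ε : ℝ, 0 < ε → ∃ N₀ : ℕ, ∀ N : ℕ, N₀ ≤ N → N ∉ E →
      ∀ (g : ℤ[X]) (q : ℕ), 1 ≤ q → ∀ (r : ℤ) (S S' : Finset (Fin R)),
        (Odd (symmDiff S S').card ∨ ∃ i j, a i * b j ≠ a j * b i ∧ symmDiff S S' = {i, j}) →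
        |total (multiple g a b S) N q r| + |total (multiple g a b S') N q r| ≤ (points N q r).card + ε * N := by
    intro R a b ha ε hε
    obtain ⟨N₀, h1⟩ := h R a b ha ε hε
    refine ⟨N₀, fun N hN hNE g q hq r S S' hS => ?_⟩
    have h2 := h1 N hN hNE (fun t => Pool.Agent.L5helper13.LL (g.eval (t : ℤ)))
      (fun t => Pool.Agent.L5helper13.LL_le _) q hq r S S' hS
    rw [total_multiple, total_multiple, points_eq]
    exact h2
  have hsymm : ∀ {R : ℕ} (S S' : Finset (Fin R)), Even S.card → Odd S'.card → Odd (symmDiff S S').card := by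
    intro R S S' h1 h2
    have h3 : (symmDiff S S').card + 2 * (S ∩ S').card = S.card + S'.card := by
      have e1 : symmDiff S S' = (S \ S') ∪ (S' \ S) := rfl
      rw [e1, card_union_of_disjoint disjoint_sdiff_sdiff]
      have e2 := card_sdiff_add_card_inter S S'
      have e3 := card_sdiff_add_card_inter S' S
      rw [inter_comm S' S] at e3
      omega
    rw [Nat.even_iff] at h1
    rw [Nat.odd_iff] at h2 ⊢
    omega
  refine ⟨E, hE, part1, fun g hg R a b ha ε hε => ?_, fun g hg q hq r => ?_⟩
  · obtain ⟨N₁, h1⟩ := part1 R a b ha ε hε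
    have h2 : ∀ S : Finset (Fin R), ∃ K : ℕ, ∀ t : ℕ, K ≤ t → (multiple g a b S).eval (t : ℤ) ≠ 0 := fun S =>
      zeros (multiple_ne hg b (fun i => (ha i).ne') S)
    choose K hK using h2
    obtain ⟨N₂, hN₂⟩ := exists_nat_ge ((∑ S, (K S : ℝ)) / ε)
    refine ⟨N₁ + N₂, fun N hN hNE q hq r => ?_⟩
    have hKN : ∀ S, (K S : ℝ) ≤ ε * N := by
      intro S
      have h3 : (∑ S, (K S : ℝ)) / ε ≤ N := hN₂.trans (by exact_mod_cast (by omega : N₂ ≤ N))
      rw [div_le_iff₀ hε] at h3
      have h4 : (K S : ℝ) ≤ ∑ S, (K S : ℝ) :=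
        single_le_sum (f := fun S => (K S : ℝ)) (fun _ _ => Nat.cast_nonneg _) (mem_univ S)
      linarith
    have h3 := h1 N (by omega) hNE g q hq r
    set P : ℝ := ((points N q r).card : ℝ) with hP
    have h4 : ∀ S, |total (multiple g a b S) N q r| ≤ (P + ε * N) / 2 → ∀ s : ℝ, s = 1 ∨ s = -1 →
        P / 4 - ε * N ≤ count (multiple g a b S) s N q r := by
      intro S hS s hs
      have h5 := count_bound (hK S) N q r hs hS
      have h6 := hKN S
      have h7 : 0 ≤ ε * N := by positivity
      rw [← hP] at h5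
      linarith
    by_cases h5 : ∀ S : Finset (Fin R), Even S.card → |total (multiple g a b S) N q r| ≤ (P + ε * N) / 2
    · exact Or.inl fun S hS => h4 S (h5 S hS)
    · right
      push Not at h5
      obtain ⟨S, hS, h6⟩ := h5
      intro S' hS'
      apply h4
      have h7 := h3 S S' (Or.inl (hsymm S S' hS hS'))
      linarith
  · by_contra hcon
    rw [not_or] at hcon
    obtain ⟨hc1, hc2⟩ := hcon
    push Not at hc1 hc2
    obtain ⟨k, a, b, ha, hk, hB⟩ := hc1
    obtain ⟨k', a', b', ha', hk', hB'⟩ := hc2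
    unfold BothSigns at hB hB'
    push Not at hB hB'
    obtain ⟨s, hs, hfin⟩ := hB
    obtain ⟨s', hs', hfin'⟩ := hB'
    obtain ⟨K, hK⟩ := total_large (multiple_ne hg b (fun i => (ha i).ne') univ) hs hfin
    obtain ⟨K', hK'⟩ := total_large (multiple_ne hg b' (fun i => (ha' i).ne') univ) hs' hfin'
    -- all the forms together
    set A : Fin (k + k') → ℤ := Fin.append a a' with hA
    set B : Fin (k + k') → ℤ := Fin.append b b' with hB
    have hA0 : ∀ i, 0 < A i := by
      intro i
      refine Fin.addCases (fun j => ?_) (fun j => ?_) i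
      · rw [hA, Fin.append_left]; exact ha j
      · rw [hA, Fin.append_right]; exact ha' j
    set S : Finset (Fin (k + k')) := univ.map (Fin.castAddEmb k') with hS
    set S' : Finset (Fin (k + k')) := univ.map (Fin.natAddEmb k) with hS'
    have e1 : multiple g A B S = multiple g a b univ := by
      unfold multiple
      rw [hS, prod_map]
      congr 1
      apply prod_congr rfl
      intro i _
      rw [hA, hB]
      simp only [Fin.castAddEmb_apply, Fin.append_left]
    have e2 : multiple g A B S' = multiple g a' b' univ := by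
      unfold multiple
      rw [hS', prod_map]
      congr 1
      apply prod_congr rfl
      intro i _
      rw [hA, hB]
      simp only [Fin.natAddEmb_apply, Fin.append_right]
    have c1 : Even S.card := by rw [hS, card_map, card_univ, Fintype.card_fin]; exact hk
    have c2 : Odd S'.card := by rw [hS', card_map, card_univ, Fintype.card_fin]; exact hk'
    have hq0 : (0 : ℝ) < q := by exact_mod_cast hq
    obtain ⟨N₀, h1⟩ := part1 (k + k') A B hA0 (1 / (2 * q)) (by positivity)
    obtain ⟨u, hu, huE⟩ := Pool.Agent.L5helper13.LZ_seq hE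
    obtain ⟨N₂, hN₂⟩ := exists_nat_gt ((2 * (q : ℝ)) * (2 * K + 2 * K' + 1))
    set N := u (N₀ + N₂) with hN
    have hNge : N₀ + N₂ ≤ N := hu.id_le _
    have h2 := h1 N (by omega) (huE _) g q hq r S S' (Or.inl (hsymm S S' c1 c2))
    rw [e1, e2] at h2
    have h3 := hK N
    have h4 := hK' N
    have h5 := points_lower N q hq r
    have h6 : (2 * (q : ℝ)) * (2 * K + 2 * K' + 1) < N := lt_of_lt_of_le hN₂ (by exact_mod_cast (by omega : N₂ ≤ N))
    have h7 : (1 / (2 * (q : ℝ))) * N = N / q / 2 := by field_simp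
    rw [h7] at h2
    have h8 : 2 * ((2 * (K : ℝ) + 2 * K' + 1)) < N / q := by
      rw [lt_div_iff₀ hq0]
      linarith
    linarith

end Pool.Agent.Results.MP_648c71_nt.ParityAlternative
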