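import Pool.Agent.L5helper2.TW.Final

/-!
The Liouville function at all quadratic polynomials `f` of positive nonsquare discriminant (any
leading coefficient), in all arithmetic progressions: both signs, and more precisely all four sign
patterns `(λ(d), λ(d'))` at the factorisations `|f(n)| = d d'`, occur often.

Method: Matomaki-Radziwill theorem for the hyperbolic angles of the elements of the real quadratic
order of index `q`, for the function `λ(N z) χ(z)` with a real character `χ` (`L5helper2/TW`); a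
primitive element `u₀` with `χ(u₀) = 1`, `λ(N u₀) = -1` from the prime number theorem in ray
classes; pairs `(x, y)` of the same colour with small determinant and `λ(N x) ≠ λ(N y)`; an
auxiliary prime factor `p` of `N y` turns such a pair into two factorisations, of which one has the
prescribed signs.
-/

set_option autoImplicit false

namespace Pool.Agent.Results.MP_648c71_nt.PositiveDiscriminants

/-- `m = d * d'` where `λ(d) = e₁`, `λ(d') = e₂` (so `λ(m) = e₁ * e₂`), and every square divisor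
`k ^ 2` of `m` has `k ≤ S` -/
def Pattern (S : ℕ) (e₁ e₂ : ℤ) (m d d' : ℕ) : Prop :=
  m = d * d' ∧ (∀ k : ℕ, k ^ 2 ∣ m → k ≤ S) ∧
    (-1 : ℤ) ^ ArithmeticFunction.cardFactors d = e₁ ∧
    (-1 : ℤ) ^ ArithmeticFunction.cardFactors d' = e₂

lemma log_ineq {δ : ℝ} (hδ : 0 < δ) (A : ℝ) (hA : 0 < A) {K : ℝ} (hK : 0 ≤ K) :
    ∃ N₁ : ℕ, ∀ N M : ℕ, N₁ ≤ N → (N : ℝ) ≤ A * M → M ≤ N →
      (N : ℝ) / Real.log N ^ (K + δ) ≤ (M : ℝ) / Real.log M ^ (K + δ / 2) := by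
  have h1 := (Real.tendsto_log_atTop.comp tendsto_natCast_atTop_atTop)
  have h2 : Filter.Tendsto (fun N : ℕ => Real.log N ^ (δ / 2)) Filter.atTop Filter.atTop :=
    (tendsto_rpow_atTop (by positivity)).comp h1
  obtain ⟨N₁, hN₁⟩ := (h2.eventually (Filter.eventually_ge_atTop A)).exists_forall_of_atTop
  obtain ⟨N₂, hN₂⟩ := exists_nat_ge (3 * A)
  refine ⟨max (max N₁ N₂) 3, fun N M hN hNM hMN => ?_⟩
  have g1 : N₁ ≤ N := (le_max_left _ _).trans ((le_max_left _ _).trans hN)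
  have g2 : N₂ ≤ N := (le_max_right _ _).trans ((le_max_left _ _).trans hN)
  have g3 : 3 ≤ N := (le_max_right _ _).trans hN
  have hNR : (3 : ℝ) ≤ N := by exact_mod_cast g3
  have hM3 : (3 : ℝ) ≤ M := by
    have h5 : 3 * A ≤ N := hN₂.trans (by exact_mod_cast g2)
    have h6 : 3 * A ≤ A * M := h5.trans hNM
    nlinarith
  have hlM : 0 < Real.log M := Real.log_pos (by linarith)
  have hlN : 0 < Real.log N := Real.log_pos (by linarith)
  have hle : Real.log M ≤ Real.log N :=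
    Real.log_le_log (by linarith) (by exact_mod_cast hMN)
  have h3 := hN₁ N g1
  rw [div_le_div_iff₀ (Real.rpow_pos_of_pos hlN _) (Real.rpow_pos_of_pos hlM _)]
  have e1 : K + δ = (K + δ / 2) + δ / 2 := by ring
  rw [e1, Real.rpow_add hlN]
  have h4 : Real.log M ^ (K + δ / 2) ≤ Real.log N ^ (K + δ / 2) :=
    Real.rpow_le_rpow hlM.le hle (by positivity)
  have h5 : 0 ≤ Real.log N ^ (K + δ / 2) := (Real.rpow_pos_of_pos hlN _).le
  calc (N : ℝ) * Real.log M ^ (K + δ / 2) ≤ (A * M) * Real.log N ^ (K + δ / 2) :=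
        mul_le_mul hNM h4 (Real.rpow_pos_of_pos hlM _).le (by positivity)
    _ ≤ (Real.log N ^ (δ / 2) * M) * Real.log N ^ (K + δ / 2) := by
        apply mul_le_mul_of_nonneg_right _ h5
        exact mul_le_mul_of_nonneg_right h3 (Nat.cast_nonneg M)
    _ = (M : ℝ) * (Real.log N ^ (K + δ / 2) * Real.log N ^ (δ / 2)) := by ring

/-- **Theorem.** Let `f(n) = a n^2 + b n + c` with `a ≠ 0` have a positive discriminant which is not
a perfect square, and let `u mod q` be a residue class. There is `S` such that for all signs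
`e₁`, `e₂`:
* for every `ε > 0` and all large `N` there are at least `N / (log N)^(2 log 2 + ε)` integers
  `1 ≤ n ≤ N`, `n ≡ u mod q`, with a factorisation `|f(n)| = d d'`, `d, d' ≤ S n`, `λ(d) = e₁`,
  `λ(d') = e₂` (hence `λ(f(n)) = e₁ e₂`), where `f(n)` has no square divisor `> S^2`;
* for some `κ > 0` and all large `N` there are at least `κ N` such pairs `(d, d')` with
  `d, d' ≤ N`. -/
theorem result (a b c : ℤ) (ha : a ≠ 0) (hD : 0 < b ^ 2 - 4 * a * c)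
    (hns : ¬ IsSquare (b ^ 2 - 4 * a * c)) (q u : ℕ) (hq : 1 ≤ q) :
    ∃ S : ℕ, ∀ e₁ e₂ : ℤ, (e₁ = 1 ∨ e₁ = -1) → (e₂ = 1 ∨ e₂ = -1) →
      (∀ ε : ℝ, 0 < ε → ∃ N₀ : ℕ, ∀ N : ℕ, N₀ ≤ N →
        (N : ℝ) / Real.log N ^ (2 * Real.log 2 + ε) ≤
        (Set.ncard {n : ℕ | 1 ≤ n ∧ n ≤ N ∧ n ≡ u [MOD q] ∧ ∃ d d' : ℕ, d ≤ S * n ∧ d' ≤ S * n ∧
          Pattern S e₁ e₂ (a * (n : ℤ) ^ 2 + b * n + c).natAbs d d'} : ℝ)) ∧
      ∃ κ : ℝ, 0 < κ ∧ ∃ N₀ : ℕ, ∀ N : ℕ, N₀ ≤ N → κ * N ≤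
        (Set.ncard {p : ℕ × ℕ | p.1 ≤ N ∧ p.2 ≤ N ∧ ∃ n : ℕ, 1 ≤ n ∧ n ≡ u [MOD q] ∧
          Pattern S e₁ e₂ (a * (n : ℤ) ^ 2 + b * n + c).natAbs p.1 p.2} : ℝ) := by
  classical
  -- the sign of the leading coefficient
  obtain ⟨σ, hσ, hσa⟩ : ∃ σ : ℤ, (σ = 1 ∨ σ = -1) ∧ 0 < σ * a := by
    rcases lt_or_gt_of_ne ha with h | h
    · exact ⟨-1, Or.inr rfl, by linarith⟩
    · exact ⟨1, Or.inl rfl, by linarith⟩
  have hσ2 : σ * σ = 1 := by rcases hσ with rfl | rfl <;> norm_num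
  set r : ℕ := u % q with hr
  have hrq : r < q := Nat.mod_lt _ (by omega)
  have hqZ : (0 : ℤ) < q := by exact_mod_cast hq
  set A : ℤ := σ * a * (q : ℤ) ^ 2 with hA
  set B : ℤ := σ * (2 * a * q * r + b * q) with hB
  set C : ℤ := σ * (a * (r : ℤ) ^ 2 + b * r + c) with hC
  have hA0 : 0 < A := by positivity
  have hdisc : B ^ 2 - 4 * A * C = (q : ℤ) ^ 2 * (b ^ 2 - 4 * a * c) := by
    rw [hA, hB, hC]
    linear_combination ((2 * a * q * r + b * q) ^ 2 - 4 * a * q ^ 2 *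
      (a * (r : ℤ) ^ 2 + b * r + c)) * hσ2
  have hD' : 0 < B ^ 2 - 4 * A * C := by rw [hdisc]; positivity
  have hns' : ¬ IsSquare (B ^ 2 - 4 * A * C) := by
    rw [hdisc]
    rintro ⟨m, hm⟩
    apply hns
    have e : (q : ℤ) ^ 2 ∣ m ^ 2 := ⟨b ^ 2 - 4 * a * c, by linarith⟩
    obtain ⟨k, rfl⟩ := (Int.pow_dvd_pow_iff two_ne_zero).1 e
    refine ⟨k, ?_⟩
    have hq2 : (q : ℤ) ^ 2 ≠ 0 := by positivity
    apply mul_left_cancel₀ hq2
    linarith
  obtain ⟨S, hS⟩ := Pool.Agent.L5helper2.TW.final_pos hA0 hD' hns'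
  have hval : ∀ m : ℕ, A * (m : ℤ) ^ 2 + B * m + C =
      σ * (a * (((q * m + r : ℕ) : ℤ)) ^ 2 + b * ((q * m + r : ℕ) : ℤ) + c) := by
    intro m
    rw [hA, hB, hC]
    push_cast
    ring
  have habs : ∀ (m : ℕ) (x : ℕ), (x : ℤ) = A * (m : ℤ) ^ 2 + B * m + C →
      (a * (((q * m + r : ℕ) : ℤ)) ^ 2 + b * ((q * m + r : ℕ) : ℤ) + c).natAbs = x := by
    intro m x hx
    rw [hval] at hx
    have h1 := congrArg Int.natAbs hx
    rw [Int.natAbs_mul] at h1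
    have h2 : σ.natAbs = 1 := by rcases hσ with h | h <;> rw [h] <;> rfl
    rw [h2, one_mul, Int.natAbs_natCast] at h1
    exact h1.symm
  have hmod : ∀ m : ℕ, q * m + r ≡ u [MOD q] := by
    intro m
    unfold Nat.ModEq
    rw [Nat.mul_add_mod, hr, Nat.mod_mod]
  refine ⟨S, fun e₁ e₂ he₁ he₂ => ?_⟩
  obtain ⟨h1, κ, hκ, N₀, h2⟩ := hS e₁ e₂ he₁ he₂
  refine ⟨fun ε hε => ?_, κ, hκ, N₀, fun N hN => (h2 N hN).trans ?_⟩
  · obtain ⟨N₁, hN₁⟩ := h1 (ε / 2) (by positivity)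
    obtain ⟨N₂, hN₂⟩ := log_ineq hε (2 * q) (by positivity)
      (show 0 ≤ 2 * Real.log 2 by positivity)
    refine ⟨max (q * (N₁ + 1) + r) (max N₂ (4 * q)), fun N hN => ?_⟩
    have g1 : q * (N₁ + 1) + r ≤ N := (le_max_left _ _).trans hN
    have g2 : N₂ ≤ N := (le_max_left _ _).trans ((le_max_right _ _).trans hN)
    have g3 : 4 * q ≤ N := (le_max_right _ _).trans ((le_max_right _ _).trans hN)
    set M : ℕ := (N - r) / q with hM
    have hM1 : N₁ ≤ M := by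
      rw [hM, Nat.le_div_iff_mul_le (by omega)]
      have : N₁ * q ≤ q * (N₁ + 1) := by nlinarith
      omega
    have hMq : q * M + r ≤ N := by
      have := Nat.mul_div_le (N - r) q
      rw [← hM] at this
      omega
    have hMN : M ≤ N := by nlinarith
    have hNM : (N : ℝ) ≤ 2 * q * M := by
      have h5 : N - r < q * (M + 1) := by
        rw [hM]
        have := Nat.lt_mul_div_succ (N - r) (show 0 < q by omega)
        exact this
      have h6 : N < q * M + 2 * q := by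
        have : q * (M + 1) = q * M + q := by ring
        omega
      have h7 : N ≤ 2 * q * M := by nlinarith
      exact_mod_cast h7
    refine (hN₂ N M g2 hNM hMN).trans ((hN₁ M hM1).trans ?_)
    have hfin : {n : ℕ | 1 ≤ n ∧ n ≤ N ∧ n ≡ u [MOD q] ∧ ∃ d d' : ℕ, d ≤ S * n ∧ d' ≤ S * n ∧
        Pattern S e₁ e₂ (a * (n : ℤ) ^ 2 + b * n + c).natAbs d d'}.Finite :=
      (Set.finite_Iic N).subset fun n hn => hn.2.1
    have h3 := Set.ncard_le_ncard_of_injOn (s := {n : ℕ | 1 ≤ n ∧ n ≤ M ∧ ∃ d d' : ℕ,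
      (d : ℤ) * d' = A * (n : ℤ) ^ 2 + B * n + C ∧
      d ≤ S * n ∧ d' ≤ S * n ∧ (∀ k : ℕ, k ^ 2 ∣ d * d' → k ≤ S) ∧
      (-1 : ℤ) ^ ArithmeticFunction.cardFactors d = e₁ ∧
      (-1 : ℤ) ^ ArithmeticFunction.cardFactors d' = e₂}) (fun m => q * m + r) ?_ ?_ hfin
    · exact_mod_cast h3
    · rintro m ⟨m1, m2, d, d', m3, m4, m5, m6, m7, m8⟩
      have hm : m ≤ q * m + r := by nlinarith
      refine ⟨by nlinarith, by nlinarith, hmod m, d, d', ?_, ?_, ?_, ?_, m7, m8⟩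
      · exact m4.trans (Nat.mul_le_mul_left S hm)
      · exact m5.trans (Nat.mul_le_mul_left S hm)
      · exact habs m (d * d') (by push_cast; exact m3)
      · rw [habs m (d * d') (by push_cast; exact m3)]
        exact m6
    · intro m _ m' _ h
      simp only at h
      have : q * m = q * m' := by omega
      exact Nat.eq_of_mul_eq_mul_left (by omega) this
  · have hfin : {p : ℕ × ℕ | p.1 ≤ N ∧ p.2 ≤ N ∧ ∃ n : ℕ, 1 ≤ n ∧ n ≡ u [MOD q] ∧
          Pattern S e₁ e₂ (a * (n : ℤ) ^ 2 + b * n + c).natAbs p.1 p.2}.Finite :=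
      ((Set.finite_Iic N).prod (Set.finite_Iic N)).subset fun p hp => ⟨hp.1, hp.2.1⟩
    have h3 := Set.ncard_le_ncard (s := {p : ℕ × ℕ | 1 ≤ p.1 ∧ p.1 ≤ N ∧ 1 ≤ p.2 ∧ p.2 ≤ N ∧
      (∃ n : ℕ, 1 ≤ n ∧ (p.1 : ℤ) * p.2 = A * (n : ℤ) ^ 2 + B * n + C) ∧
      (∀ k : ℕ, k ^ 2 ∣ p.1 * p.2 → k ≤ S) ∧
      (-1 : ℤ) ^ ArithmeticFunction.cardFactors p.1 = e₁ ∧
      (-1 : ℤ) ^ ArithmeticFunction.cardFactors p.2 = e₂}) (t := {p : ℕ × ℕ | p.1 ≤ N ∧
        p.2 ≤ N ∧ ∃ n : ℕ, 1 ≤ n ∧ n ≡ u [MOD q] ∧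
          Pattern S e₁ e₂ (a * (n : ℤ) ^ 2 + b * n + c).natAbs p.1 p.2}) ?_ hfin
    · exact_mod_cast h3
    · rintro ⟨d, d'⟩ ⟨m1, m2, m3, m4, ⟨m, m5, m6⟩, m7, m8, m9⟩
      simp only at m1 m2 m3 m4 m6 m7 m8 m9
      refine ⟨m2, m4, q * m + r, by nlinarith, hmod m, ?_, ?_, m8, m9⟩
      · exact habs m (d * d') (by push_cast; exact m6)
      · rw [habs m (d * d') (by push_cast; exact m6)]
        exact m7

end Pool.Agent.Results.MP_648c71_nt.PositiveDiscriminants
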